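import Mathlib
import Pool.Agent.Helper89.SX.StmtProof

/-!
# Homomorphisms from the tensor square of the Steinberg module to `E(θ)_J`, `θ ≠ tr`

Let `G` be a connected reductive group over an algebraic closure `F` of the field with `p` elements
(`Datum`), `k` a field of characteristic zero, `θ` a nontrivial character of the maximal torus and
`J ⊆ I(θ)`.  Then `Hom_{kG}(St ⊗ St, E(θ)_J) = 0`.
-/

set_option autoImplicit false

namespace Pool.Agent.Results.MP_a60acf_al.TensorSquare

open Pool.Agent.Helper89.SX

/-- **Main theorem.**  Every `k`-linear map `f : St ⊗ St → E(θ)_J` which commutes with the action of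
`G` (diagonal on the tensor product) is zero. -/
theorem result {p : ℕ} [Fact p.Prime] {F : Type*} [Field F] [CharP F p] [IsAlgClosed F]
    {G : Type*} [Group G] {I : Type*} {C : CoxeterMatrix I} {W : Type*} [Group W] [Fintype W]
    {cs : CoxeterSystem C W} (D : Datum p F G cs) (k : Type*) [Field k] [CharZero k]
    {n : Set I → W → G} (hn : D.IsReps n) {θ : D.Chr k} (hθ : θ ≠ D.tr k) {J : Set I}
    (hJ : J ⊆ D.Iset k θ) : D.HomIsZero k θ n J :=
  D.homIsZero hn hθ hJ

end Pool.Agent.Results.MP_a60acf_al.TensorSquare
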